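import Mathlib

namespace Pool.Agent.Results.MP_542d22_co.MaderLocalEdgeConnectivity

/-- A digraph with vertex type `V` and edge type `E`: parallel edges are allowed, loops are not. -/
structure MultiDigraph (V E : Type) where
  /-- the tail of an edge -/
  tail : E → V
  /-- the head of an edge -/
  head : E → V
  /-- there are no loops -/
  loopless : ∀ e, tail e ≠ head e

namespace MultiDigraph

variable {V E : Type} (D : MultiDigraph V E)

/-- The out-degree of `v`: the number of edges with tail `v`. -/
noncomputable def outDegree (v : V) : ℕ := Nat.card {e : E // D.tail e = v}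

/-- `D.IsWalk x y p`: the list of edges `p` is a directed walk from `x` to `y`. -/
def IsWalk : V → V → List E → Prop
  | x, y, [] => x = y
  | x, y, e :: p => D.tail e = x ∧ IsWalk (D.head e) y p

/-- `D.IsPath x y p`: `p` is a directed walk from `x` to `y` that repeats no vertex. -/
def IsPath (x y : V) (p : List E) : Prop :=
  D.IsWalk x y p ∧ (x :: p.map D.head).Nodup

/-- The set of `k` such that there are `k` pairwise edge-disjoint directed paths from `x` to
`y`. -/
def disjointPathNumbers (x y : V) : Set ℕ :=
  {k | ∃ P : Fin k → List E, (∀ i, D.IsPath x y (P i)) ∧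
    ∀ i j, i ≠ j → ∀ e, e ∈ P i → e ∉ P j}

/-- `λ(x,y)`: the largest number of pairwise edge-disjoint directed paths from `x` to `y`
(for `x ≠ y` and finitely many edges it is a maximum, see `isGreatest_lam`). -/
noncomputable def lam (x y : V) : ℕ := sSup (D.disjointPathNumbers x y)

variable {D}

/-- A walk that starts in `S` and ends outside `S` uses an edge leaving `S`. -/
theorem exists_leaving (S : Set V) : ∀ (p : List E) (x y : V), D.IsWalk x y p → x ∈ S → y ∉ S →
    ∃ e ∈ p, D.tail e ∈ S ∧ D.head e ∉ S := by
  intro p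
  induction p with
  | nil =>
    intro x y h hx hy
    have h' : x = y := h
    exact absurd (h' ▸ hx) hy
  | cons e p ih =>
    intro x y h hx hy
    obtain ⟨h1, h2⟩ := h
    by_cases he : D.head e ∈ S
    · obtain ⟨e', he', h3⟩ := ih _ _ h2 he hy
      exact ⟨e', List.mem_cons_of_mem _ he', h3⟩
    · exact ⟨e, List.mem_cons_self, by rw [h1]; exact hx, he⟩

/-- The number of edge-disjoint paths from `x` to `y` is at most the size of a cut. -/
theorem le_card_cut [Fintype E] [DecidableEq V] (S : Finset V) {x y : V} (hx : x ∈ S)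
    (hy : y ∉ S) {k : ℕ} (hk : k ∈ D.disjointPathNumbers x y) :
    k ≤ (Finset.univ.filter (fun e : E => D.tail e ∈ S ∧ D.head e ∉ S)).card := by
  classical
  obtain ⟨P, hP, hd⟩ := hk
  have h1 : ∀ i, ∃ e ∈ P i, D.tail e ∈ S ∧ D.head e ∉ S := fun i =>
    exists_leaving (S : Set V) (P i) x y (hP i).1 hx hy
  choose f hf hf2 using h1
  have hinj : Function.Injective f := by
    intro i j hij
    by_contra hne
    exact hd i j hne (f i) (hf i) (by rw [hij]; exact hf j)
  calc k = (Finset.univ : Finset (Fin k)).card := by simp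
    _ = (Finset.univ.image f).card := (Finset.card_image_of_injective _ hinj).symm
    _ ≤ _ := by
      apply Finset.card_le_card
      intro e he
      obtain ⟨i, -, rfl⟩ := Finset.mem_image.1 he
      simp only [Finset.mem_filter, Finset.mem_univ, true_and]
      exact hf2 i

/-- For `x ≠ y` and finitely many edges, `λ(x,y)` is the maximum of the set defining it. -/
theorem isGreatest_lam [Fintype E] {x y : V} (hxy : x ≠ y) :
    IsGreatest (D.disjointPathNumbers x y) (D.lam x y) := by
  classical
  have hne : (D.disjointPathNumbers x y).Nonempty :=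
    ⟨0, fun i => i.elim0, fun i => i.elim0, fun i => i.elim0⟩
  have hb : BddAbove (D.disjointPathNumbers x y) :=
    ⟨_, fun k hk => le_card_cut ({x} : Finset V) (Finset.mem_singleton_self x)
      (by simpa using hxy.symm) hk⟩
  exact ⟨Nat.sSup_mem hne hb, fun k hk => le_csSup hb hk⟩

end MultiDigraph

open MultiDigraph

/-- The heads of the 24 basic edges of the counterexample. -/
def heads : Fin 24 → Fin 6 :=
  ![3, 3, 3, 4,  4, 4, 4, 5,  1, 1, 5, 5,  0, 0, 4, 4,  0, 1, 1, 1,  1, 2, 2, 2]

/-- The tails of the 24 basic edges of the counterexample. -/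
def tails : Fin 24 → Fin 6 :=
  ![0, 0, 0, 0,  1, 1, 1, 1,  2, 2, 2, 2,  3, 3, 3, 3,  4, 4, 4, 4,  5, 5, 5, 5]

/-- The head of the additional edges leaving a vertex. -/
def mate : Fin 6 → Fin 6 := ![3, 4, 5, 0, 1, 2]

/-- The counterexample for `r = 4 + m`: 6 vertices, the 24 basic edges, and `m` additional parallel
edges from `v` to `mate v` for every vertex `v`. -/
def ex (m : ℕ) : MultiDigraph (Fin 6) (Fin 24 ⊕ Fin 6 × Fin m) where
  tail := Sum.elim tails (fun q => q.1)
  head := Sum.elim heads (fun q => mate q.1)
  loopless := by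
    have h1 : ∀ e, tails e ≠ heads e := by decide
    have h2 : ∀ v, v ≠ mate v := by decide
    rintro (e | ⟨v, j⟩)
    · exact h1 e
    · exact h2 v

/-- For every `r ≥ 4` there is a finite digraph (parallel edges allowed, no loops) on 6 vertices in
which every out-degree is at least `r` but `λ(x,y) < r` for every ordered pair of distinct
vertices. -/
theorem result : ∀ r : ℕ, 4 ≤ r → ∃ (E : Type) (_ : Fintype E) (D : MultiDigraph (Fin 6) E),
    (∀ v, r ≤ D.outDegree v) ∧ ∀ x y, x ≠ y → D.lam x y < r := by
  intro r hr
  obtain ⟨m, rfl⟩ : ∃ m, r = 4 + m := ⟨r - 4, by omega⟩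
  refine ⟨Fin 24 ⊕ Fin 6 × Fin m, inferInstance, ex m, ?_, ?_⟩
  · intro v
    have h2 : ∀ v, (Finset.univ.filter (fun e => tails e = v)).card = 4 := by
      decide +kernel
    rw [outDegree, Nat.card_eq_fintype_card, Fintype.card_subtype]
    calc 4 + m = ((Finset.univ.filter (fun e => tails e = v)).disjSum
          (({v} : Finset (Fin 6)) ×ˢ (Finset.univ : Finset (Fin m)))).card := by
            rw [Finset.card_disjSum, h2 v, Finset.card_product]
            simp
      _ ≤ _ := by
        apply Finset.card_le_card
        intro e he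
        rw [Finset.mem_filter]
        refine ⟨Finset.mem_univ _, ?_⟩
        rcases e with e | ⟨w, j⟩
        · exact (Finset.mem_filter.1 (Finset.inl_mem_disjSum.1 he)).2
        · exact Finset.mem_singleton.1 (Finset.mem_product.1 (Finset.inr_mem_disjSum.1 he)).1
  · intro x y hxy
    have hcut : ∀ x y : Fin 6, x ≠ y → ∃ S ∈ ({{0, 3}, {0, 3, 4}, {0, 1, 3, 4}, {0, 1, 2, 3, 4},
        {2, 5}, {1, 2, 5}, {1, 2, 4, 5}, {0, 1, 2, 4, 5}, {0, 1, 3, 4, 5}, {1, 2, 3, 4, 5}} :
          Finset (Finset (Fin 6))), x ∈ S ∧ y ∉ S ∧
        (Finset.univ.filter (fun e : Fin 24 => tails e ∈ S ∧ heads e ∉ S)).card ≤ 3 ∧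
        (Finset.univ.filter (fun v : Fin 6 => v ∈ S ∧ mate v ∉ S)).card ≤ 1 := by
      decide +kernel
    obtain ⟨S, -, hx, hy, hS, hS'⟩ := hcut x y hxy
    have hle : (ex m).lam x y ≤ 3 + 1 * m := by
      apply csSup_le'
      intro k hk
      refine (le_card_cut S hx hy hk).trans ?_
      calc _ ≤ ((Finset.univ.filter (fun e : Fin 24 => tails e ∈ S ∧ heads e ∉ S)).disjSum
            ((Finset.univ.filter (fun v : Fin 6 => v ∈ S ∧ mate v ∉ S)) ×ˢ
              (Finset.univ : Finset (Fin m)))).card := by
              apply Finset.card_le_card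
              intro e he
              rw [Finset.mem_filter] at he
              rcases e with e | ⟨w, j⟩
              · exact Finset.inl_mem_disjSum.2 (Finset.mem_filter.2 ⟨Finset.mem_univ _, he.2⟩)
              · exact Finset.inr_mem_disjSum.2 (Finset.mem_product.2
                  ⟨Finset.mem_filter.2 ⟨Finset.mem_univ _, he.2⟩, Finset.mem_univ _⟩)
        _ ≤ 3 + 1 * m := by
              rw [Finset.card_disjSum, Finset.card_product, Finset.card_univ, Fintype.card_fin]
              exact Nat.add_le_add hS (Nat.mul_le_mul_right m hS')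
    omega

end Pool.Agent.Results.MP_542d22_co.MaderLocalEdgeConnectivity
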